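import Pool.Agent.H.MP_fd33cb_co.C

set_option autoImplicit false

open Finset Real Filter Pool.Agent.H.MP_fd33cb_co

namespace Pool.Agent.Results.MP_fd33cb_co.Linear

/-- `S` is a dominating set of `G` -/
def Dom {V : Type} (G : SimpleGraph V) (S : Finset V) : Prop := ∀ v, v ∈ S ∨ ∃ w ∈ S, G.Adj v w

/-- number of dominating sets of size `i` -/
noncomputable def d {V : Type} (G : SimpleGraph V) (i : ℕ) : ℕ :=
  Nat.card {S : Finset V // Dom G S ∧ S.card = i}

/-- the domination polynomial -/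
noncomputable def D {n : ℕ} (G : SimpleGraph (Fin n)) : Polynomial ℝ :=
  ∑ i ∈ range (n + 1), Polynomial.monomial i (d G i : ℝ)

/-- average size of a dominating set -/
noncomputable def avd {n : ℕ} (G : SimpleGraph (Fin n)) : ℝ :=
  (D G).derivative.eval 1 / (D G).eval 1

/-- `m` is a mode of the domination polynomial -/
def Mode {n : ℕ} (G : SimpleGraph (Fin n)) (m : ℕ) : Prop := ∀ i, d G i ≤ d G m

theorem d_eq {V : Type} [Fintype V] (G : SimpleGraph V) (i : ℕ) :
    d G i = ((DS G).filter (·.card = i)).card := by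
  classical
  rw [d, Nat.card_eq_fintype_card, Fintype.card_subtype, DS, filter_filter]
  congr! 3

theorem d_iso {V W : Type} (G : SimpleGraph V) (f : W ≃ V) (i : ℕ) : d (G.comap f) i = d G i := by
  refine Nat.card_congr (f.finsetCongr.subtypeEquiv fun S => ?_)
  simp only [Dom, Equiv.finsetCongr_apply, card_map, mem_map_equiv, SimpleGraph.comap_adj]
  refine and_congr_left' ⟨fun h v => (h (f.symm v)).imp_right fun ⟨w, a, b⟩ =>
    ⟨f w, by simpa using a, by simpa using b⟩, fun h v => (h (f v)).imp (by simp) fun ⟨w, a, b⟩ =>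
    ⟨f.symm w, a, by simpa using b⟩⟩

theorem avd_eq {V : Type} [Fintype V] {n : ℕ} (G : SimpleGraph V) (f : Fin n ≃ V) :
    avd (G.comap f) = (∑ S ∈ DS G, (S.card : ℝ)) / (DS G).card := by
  have h : ∀ S ∈ DS G, S.card ∈ range (n + 1) := fun S _ => by
    have := card_le_univ S
    rw [← Fintype.card_congr f, Fintype.card_fin] at this
    simpa [Nat.lt_succ_iff]
  rw [avd, D, card_eq_sum_card_fiberwise h, ← sum_fiberwise_of_maps_to h]
  simp only [map_sum, Polynomial.eval_finset_sum, Polynomial.derivative_monomial,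
    Polynomial.eval_monomial, one_pow, mul_one, d_iso, Nat.cast_sum]
  simp only [d_eq]
  congr 1
  refine sum_congr rfl fun i _ => ?_
  rw [sum_congr rfl (g := fun _ => (i : ℝ)) fun S h => by rw [(mem_filter.1 h).2], sum_const,
    nsmul_eq_mul]

theorem d_zero {n : ℕ} (G : SimpleGraph (Fin n)) {i : ℕ} (h : n < i) : d G i = 0 := by
  rw [d_eq, card_eq_zero, filter_eq_empty_iff]
  intro S _ k
  have := card_le_univ S
  rw [Fintype.card_fin] at this
  omega

theorem ex_mode {n : ℕ} (G : SimpleGraph (Fin n)) : ∃ m, Mode G m := by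
  obtain ⟨m, -, h⟩ := exists_max_image (range (n + 1)) (d G) (by simp)
  refine ⟨m, fun i => ?_⟩
  by_cases k : n < i
  · simp [d_zero G k]
  · exact h i (by simp; omega)

theorem upper {n : ℕ} (G : SimpleGraph (Fin n)) (m : ℕ) (h : Mode G m) : |m - avd G| ≤ n := by
  have h1 : univ ∈ DS G := by simp [DS]
  have h2 : m ≤ n := not_lt.1 fun k => by
    have := h n
    rw [d_zero G k, d_eq, Nat.le_zero, card_eq_zero, filter_eq_empty_iff] at this
    exact this h1 (by simp)
  have h3 : avd G = _ := avd_eq G (Equiv.refl _)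
  have h4 : (0 : ℝ) < (DS G).card := by exact_mod_cast card_pos.2 ⟨_, h1⟩
  have h5 : avd G ≤ n := by
    rw [h3, div_le_iff₀ h4, mul_comm, ← nsmul_eq_mul]
    exact sum_le_card_nsmul _ _ _ fun S _ => by simpa using card_le_univ S
  have h6 : 0 ≤ avd G := by rw [h3]; positivity
  have h7 : (m : ℝ) ≤ n := by exact_mod_cast h2
  rw [abs_le]; constructor <;> linarith [Nat.cast_nonneg (α := ℝ) m]

theorem lower : ∀ᶠ n : ℕ in atTop, ∃ G : SimpleGraph (Fin n), ∀ m, Mode G m →
    1 / 10 ^ 14 * (n : ℝ) ≤ |m - avd G| := by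
  have t : Tendsto (fun n : ℕ => (n : ℝ) / 10 ^ 30) atTop atTop :=
    tendsto_natCast_atTop_atTop.atTop_div_const (by norm_num)
  have t1 := ((tendsto_pow_mul_exp_neg_atTop_nhds_zero 1).comp t).eventually
    (gt_mem_nhds (show (0 : ℝ) < 1 / 10 ^ 32 by norm_num))
  filter_upwards [t1, eventually_ge_atTop (10 ^ 26)] with n h1 h2
  obtain ⟨p, N, rfl, a1, a2⟩ : ∃ p N : ℕ, n = 14 * p + N ∧ 3200000000000 * p ≤ N ∧
      N ≤ 3200000000001 * p := ⟨n / 3200000000014, n - 14 * (n / 3200000000014), by omega, by omega,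
        by omega⟩
  have hp : 1000 ≤ p := by omega
  have b1 : (3200000000000 : ℝ) * p ≤ N := by exact_mod_cast a1
  have b2 : (N : ℝ) ≤ 3200000000001 * p := by exact_mod_cast a2
  have b3 : (1000 : ℝ) ≤ p := by exact_mod_cast hp
  obtain ⟨φ, hφ⟩ := ex_phi (p := p) (N := N) (ε := 1 / 200000) (by omega) (by norm_num) (by linarith)
  let a : Fin (4 * p) := ⟨0, by omega⟩
  obtain ⟨G, hG⟩ := main (γ := Fin N ⊕ Fin p) (Sum.elim φ fun b => (a, b)) (p := p) (by simp) (by simp)
    (fun A B x y => le_trans (pow_le_pow_of_le_one (by norm_num) (by norm_num)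
      (card_le_card_of_injOn Sum.inl (fun z hz => by simpa using hz) Sum.inl_injective.injOn))
      (hφ A B x y)) (by omega) a (fun b => ⟨.inr b, rfl⟩) (K := 3200000000010) (by norm_num)
      (by simp; linarith) (by
        simp only [Function.comp, pow_one, Fintype.card_sum, Fintype.card_fin] at h1 ⊢
        push_cast at h1 ⊢
        have : exp (-(p / (5184 * 3200000000010))) ≤ exp (-((14 * p + N) / 10 ^ 30)) := by
          rw [exp_le_exp]; linarith
        nlinarith [exp_pos (-(p / (5184 * 3200000000010)) : ℝ)])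
  let f := (Fintype.equivFinOfCardEq (α := (Fin (4 * p) ⊕ Fin p) ⊕ (Fin (4 * p) × Bool) ⊕ Fin N ⊕ Fin p)
    (n := 14 * p + N) (by simp; ring)).symm
  refine ⟨G.comap f, fun m hm => ?_⟩
  rw [avd_eq]
  refine le_trans ?_ (hG m fun i => by simpa only [d_iso, ← d_eq] using hm i)
  push_cast; linarith

theorem result :
    (¬ ∀ (n : ℕ) (G : SimpleGraph (Fin n)) (m : ℕ), Mode G m → (m : ℤ) = ⌊avd G⌋ ∨ (m : ℤ) = ⌈avd G⌉) ∧
    (∀ (n : ℕ) (G : SimpleGraph (Fin n)) (m : ℕ), Mode G m → |m - avd G| ≤ n) ∧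
    ∃ c : ℝ, 0 < c ∧ ∀ᶠ n : ℕ in atTop, ∃ G : SimpleGraph (Fin n), (∃ m, Mode G m) ∧
      ∀ m, Mode G m → c * n ≤ |m - avd G| := by
  refine ⟨fun h => ?_, fun n G m => upper G m, _, by norm_num,
    lower.mono fun n ⟨G, h⟩ => ⟨G, ex_mode G, h⟩⟩
  obtain ⟨n, ⟨G, h1⟩, h2⟩ := (lower.and (eventually_ge_atTop (10 ^ 15))).exists
  obtain ⟨m, hm⟩ := ex_mode G
  have h3 := h1 m hm
  have h4 : (10 : ℝ) ^ 15 ≤ n := by exact_mod_cast h2
  have h5 : |m - avd G| < 1 := by
    rw [abs_lt]
    rcases h n G m hm with k | k <;> have := congrArg (Int.cast (R := ℝ)) k <;>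
      rw [Int.cast_natCast] at this <;> constructor <;>
      linarith [Int.floor_le (avd G), Int.lt_floor_add_one (avd G), Int.le_ceil (avd G),
        Int.ceil_lt_add_one (avd G)]
  linarith

end Pool.Agent.Results.MP_fd33cb_co.Linear
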